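import Pool.Agent.Helper63.ML.GoodQ
import Pool.Agent.Helper59.Pack.Chain

/-!
# Every convex body in space has lattice packing density at least `1/4`

Known before: `m_L ≥ 0.2153...` (every convex body `K ⊂ ℝ³` satisfies
`Vol(K) / Vol((K - K) / 2) ≥ 2/5`, and every symmetric body has lattice packing density at least
`0.53835...` by a theorem of Smith).

The proof: by a topological argument (a nonvanishing section argument over the disc of all planes,
for the measure of the triangles of maximal area in a projection) some orthogonal projection `Q`
of `K` has area at least `1.84` times the area of the largest triangle contained in `Q`; such a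
`Q` has a planar lattice packing of density at least `3/4`; stacking the corresponding translates
of `K` in the direction of the projection gives a lattice packing of `K` of density at least
`(1/3) (3/4)`.
-/

set_option autoImplicit false

namespace Pool.Agent.Results.MP_3d065d_co.LowerBoundL

open Pool.Agent.Helper59.Pack Pool.Agent.Helper69.MD
open scoped ENNReal

/-- Every convex body `K ⊂ ℝ³` has `δ_L(K) ≥ 1/4`; hence `m_L ≥ 1/4` and `m_T ≥ 1/4`. -/
theorem result :
    (∀ K : Set E3, IsConvexBody K → 1 / 4 ≤ deltaL K) ∧ 1 / 4 ≤ mL ∧ 1 / 4 ≤ mT := by
  have h : ∀ K : Set E3, IsConvexBody K → 1 / 4 ≤ deltaL K := by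
    intro K hK
    have h := Pool.Agent.Helper63.ML.deltaL_lower hK
    rwa [show ENNReal.ofReal (1 / 4) = 1 / 4 by
      rw [ENNReal.ofReal_div_of_pos (by norm_num)]; simp] at h
  have h2 : 1 / 4 ≤ mL := by
    unfold mL
    exact le_iInf fun K => le_iInf fun hK => h K hK
  exact ⟨h, h2, h2.trans chain.2.1⟩

end Pool.Agent.Results.MP_3d065d_co.LowerBoundL
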