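import Pool.Agent.Helper49.EJ.HC
import Pool.Agent.Helper84.RK.All

/-!
MP_b5f63d_co: the largest kissing configuration among random candidates.

`result` is the theorem of the claim.  `many` and `scale` say how it is a part of Q1.  The same
order for the hard-core model is `Pool.Agent.Helper49.EJ.hard_core` (file HC.lean).
-/

set_option autoImplicit false

open MeasureTheory Metric Filter Topology

namespace Pool.Agent.Helper63.Keep.RandomKissingV1

/-- `C` is the set of centres of closed unit balls in `ℝ^d`, each of which touches the closed unit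
ball around the origin and has interior disjoint from it, with pairwise disjoint interiors. -/
def IsKissing (d : ℕ) (C : Finset (EuclideanSpace ℝ (Fin d))) : Prop :=
  (∀ x ∈ C, (closedBall x 1 ∩ closedBall 0 1).Nonempty ∧ Disjoint (ball x 1) (ball 0 1)) ∧
    ∀ x ∈ C, ∀ y ∈ C, x ≠ y → Disjoint (ball x 1) (ball y 1)

/-- the kissing number `τ(d)` -/
noncomputable def tau (d : ℕ) : ℕ :=
  sSup {N : ℕ | ∃ C : Finset (EuclideanSpace ℝ (Fin d)), IsKissing d C ∧ C.card = N}

/-- the unit sphere of `ℝ^d` -/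
abbrev Sphere (d : ℕ) : Type := sphere (0 : EuclideanSpace ℝ (Fin d)) 1

/-- the uniform probability measure on the unit sphere: normalised surface measure -/
noncomputable def unif (d : ℕ) : Measure (Sphere d) :=
  ((volume : Measure (EuclideanSpace ℝ (Fin d))).toSphere Set.univ)⁻¹ •
    (volume : Measure (EuclideanSpace ℝ (Fin d))).toSphere

/-- the size of the largest kissing configuration all of whose centres are among the points
`2 x_1, ..., 2 x_n` -/
noncomputable def largest {d n : ℕ} (x : Fin n → Sphere d) : ℕ :=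
  sSup {N : ℕ | ∃ C : Finset (EuclideanSpace ℝ (Fin d)), IsKissing d C ∧
    (∀ c ∈ C, ∃ i, c = (2 : ℝ) • (x i : EuclideanSpace ℝ (Fin d))) ∧ C.card = N}

/-- the order `F(d) = d^(3/2) (2/√3)^d` -/
noncomputable def F (d : ℕ) : ℝ := (d : ℝ) ^ (3 / 2 : ℝ) * (2 / Real.sqrt 3) ^ d

lemma isKissing_iff {d : ℕ} {C : Finset (EuclideanSpace ℝ (Fin d))} :
    IsKissing d C ↔ (∀ x ∈ C, ‖x‖ = 2) ∧
      ∀ x ∈ C, ∀ y ∈ C, x ≠ y → Disjoint (ball x 1) (ball y 1) := by
  have h' : ∀ x : EuclideanSpace ℝ (Fin d),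
      ((closedBall x 1 ∩ closedBall 0 1).Nonempty ∧ Disjoint (ball x 1) (ball 0 1)) ↔ ‖x‖ = 2 := by
    intro x
    rw [disjoint_ball_ball_iff one_pos one_pos, dist_zero_right]
    constructor
    · rintro ⟨⟨y, hy1, hy2⟩, h2⟩
      rw [mem_closedBall] at hy1
      rw [mem_closedBall, dist_zero_right] at hy2
      have h3 : ‖x‖ ≤ ‖y‖ + dist y x := by
        rw [dist_eq_norm, ← norm_sub_rev x y]
        calc ‖x‖ = ‖y + (x - y)‖ := by congr 1; abel
          _ ≤ _ := norm_add_le _ _
      linarith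
    · intro hx
      refine ⟨⟨(2⁻¹ : ℝ) • x, ?_, ?_⟩, by linarith⟩
      · rw [mem_closedBall, dist_eq_norm]
        have : (2⁻¹ : ℝ) • x - x = (-2⁻¹ : ℝ) • x := by
          rw [← sub_eq_zero]
          module
        rw [this, norm_smul, hx]
        norm_num
      · rw [mem_closedBall, dist_zero_right, norm_smul, hx]
        norm_num
  unfold IsKissing
  simp only [h']

lemma norm_two_smul {d : ℕ} (x : Sphere d) :
    ‖(2 : ℝ) • (x : EuclideanSpace ℝ (Fin d))‖ = 2 := by
  have := x.2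
  rw [mem_sphere_zero_iff_norm] at this
  rw [norm_smul, this]
  norm_num

open Pool.Agent.Helper49.EJ in
/-- the kissing configurations among the candidates are the sets of candidates with pairwise
disjoint balls -/
lemma exists_iff {d n : ℕ} (x : Fin n → Sphere d) (N : ℕ) :
    (∃ C : Finset (EuclideanSpace ℝ (Fin d)), IsKissing d C ∧
      (∀ c ∈ C, ∃ i, c = (2 : ℝ) • (x i : EuclideanSpace ℝ (Fin d))) ∧ C.card = N) ↔
    ∃ I : Finset (Fin n), NoOverlap x I ∧ I.card = N := by
  classical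
  constructor
  · rintro ⟨C, hC, hCx, rfl⟩
    obtain ⟨-, h3⟩ := isKissing_iff.1 hC
    choose f hf using hCx
    refine ⟨C.attach.image (fun c => f c.1 c.2), ?_, ?_⟩
    · intro i hi j hj hij
      obtain ⟨a, -, rfl⟩ := Finset.mem_image.1 hi
      obtain ⟨b, -, rfl⟩ := Finset.mem_image.1 hj
      rw [← hf a.1 a.2, ← hf b.1 b.2]
      apply h3 _ a.2 _ b.2
      intro hab
      apply hij
      have : a = b := Subtype.ext hab
      rw [this]
    · rw [Finset.card_image_of_injective, Finset.card_attach]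
      intro a b hab
      apply Subtype.ext
      rw [hf a.1 a.2, hf b.1 b.2]
      simp only at hab
      rw [hab]
  · rintro ⟨I, hI, rfl⟩
    have hinj : Set.InjOn (fun i => (2 : ℝ) • (x i : EuclideanSpace ℝ (Fin d))) I := by
      intro i hi j hj hij
      by_contra hne
      have h4 := hI i hi j hj hne
      simp only at hij
      rw [hij] at h4
      have h5 := Set.disjoint_left.1 h4 (mem_ball_self one_pos)
      exact h5 (mem_ball_self one_pos)
    refine ⟨I.image (fun i => (2 : ℝ) • (x i : EuclideanSpace ℝ (Fin d))), ?_, ?_,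
      Finset.card_image_of_injOn hinj⟩
    · rw [isKissing_iff]
      constructor
      · intro c hc
        obtain ⟨i, -, rfl⟩ := Finset.mem_image.1 hc
        exact norm_two_smul (x i)
      · intro c hc c' hc' hne
        obtain ⟨i, hi, rfl⟩ := Finset.mem_image.1 hc
        obtain ⟨j, hj, rfl⟩ := Finset.mem_image.1 hc'
        exact hI i hi j hj (fun h => hne (by rw [h]))
    · intro c hc
      obtain ⟨i, -, rfl⟩ := Finset.mem_image.1 hc
      exact ⟨i, rfl⟩

open Pool.Agent.Helper49.EJ in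
lemma largest_eq {d n : ℕ} (x : Fin n → Sphere d) : largest x = maxBalls x := by
  unfold largest
  apply IsGreatest.csSup_eq
  constructor
  · obtain ⟨I, hI, hI2⟩ := exists_maxBalls x
    exact (exists_iff x _).2 ⟨I, (noOverlap_iff x I).2 hI, hI2⟩
  · intro N hN
    obtain ⟨I, hI, rfl⟩ := (exists_iff x N).1 hN
    exact le_maxBalls ((noOverlap_iff x I).1 hI)

lemma tau_eq (d : ℕ) : tau d = Pool.Agent.Helper84.RK.tau d := by
  classical
  unfold tau Pool.Agent.Helper84.RK.tau
  congr 1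
  ext N
  constructor
  · rintro ⟨C, hC, rfl⟩
    obtain ⟨h1, h2⟩ := isKissing_iff.1 hC
    have hn : ∀ c : C, (2⁻¹ : ℝ) • (c : EuclideanSpace ℝ (Fin d)) ∈
        sphere (0 : EuclideanSpace ℝ (Fin d)) 1 := by
      intro c
      rw [mem_sphere_zero_iff_norm, norm_smul, h1 c.1 c.2]
      norm_num
    have h22 : ∀ v : EuclideanSpace ℝ (Fin d), (2 : ℝ) • (2⁻¹ : ℝ) • v = v := by
      intro v
      rw [smul_smul]
      norm_num
    refine ⟨C.attach.image (fun c => (⟨_, hn c⟩ : Sphere d)), ?_, ?_⟩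
    · intro y hy z hz hyz
      obtain ⟨a, -, rfl⟩ := Finset.mem_image.1 hy
      obtain ⟨b, -, rfl⟩ := Finset.mem_image.1 hz
      rw [← Pool.Agent.Helper49.EJ.disjoint_iff]
      simp only [h22]
      apply h2 _ a.2 _ b.2
      intro hab
      apply hyz
      have : a = b := Subtype.ext hab
      rw [this]
    · rw [Finset.card_image_of_injective, Finset.card_attach]
      intro a b hab
      have h3 := congrArg (fun v : Sphere d => (2 : ℝ) • (v : EuclideanSpace ℝ (Fin d))) hab
      simp only [h22] at h3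
      exact Subtype.ext h3
  · rintro ⟨Y, hY, rfl⟩
    have hinj : Function.Injective
        (fun y : Sphere d => (2 : ℝ) • (y : EuclideanSpace ℝ (Fin d))) := by
      intro a b hab
      apply Subtype.ext
      simp only at hab
      exact smul_right_injective _ (two_ne_zero' ℝ) hab
    refine ⟨Y.image (fun y : Sphere d => (2 : ℝ) • (y : EuclideanSpace ℝ (Fin d))), ?_,
      Finset.card_image_of_injective _ hinj⟩
    rw [isKissing_iff]
    constructor
    · intro c hc
      obtain ⟨y, -, rfl⟩ := Finset.mem_image.1 hc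
      exact norm_two_smul y
    · intro c hc c' hc' hne
      obtain ⟨y, hy, rfl⟩ := Finset.mem_image.1 hc
      obtain ⟨z, hz, rfl⟩ := Finset.mem_image.1 hc'
      exact (Pool.Agent.Helper49.EJ.disjoint_iff y z).2 (hY y hy z hz (fun h => hne (by rw [h])))

lemma lt_largest_iff {d n : ℕ} (x : Fin n → Sphere d) (t : ℝ) :
    t < largest x ↔ ∃ I : Finset (Fin n), Pool.Agent.Helper84.RK.Kis x I ∧ t < I.card := by
  rw [largest_eq]
  constructor
  · intro h
    obtain ⟨I, hI, hI2⟩ := Pool.Agent.Helper49.EJ.exists_maxBalls x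
    exact ⟨I, hI, by rw [hI2]; exact h⟩
  · rintro ⟨I, hI, h⟩
    have h2 : (I.card : ℝ) ≤ Pool.Agent.Helper49.EJ.maxBalls x := by
      exact_mod_cast Pool.Agent.Helper49.EJ.le_maxBalls hI
    linarith

/-- **The scale which ends in Q1.** The kissing numbers have the exponent `log₂ (2/√3)` of Wyner's
lower bound if and only if for every `s` the largest kissing configuration among `2^(s d)` random
candidates has at most this exponent.  By `result` this is so for `s < 0.3044`. -/
theorem scale :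
    Tendsto (fun d : ℕ => Real.logb 2 (tau d) / d) atTop (𝓝 (Real.logb 2 (2 / Real.sqrt 3))) ↔
      ∀ s ε : ℝ, 0 < ε → ∀ᶠ d : ℕ in atTop,
        (Measure.pi fun _ : Fin ⌊(2 : ℝ) ^ (s * d)⌋₊ => unif d).real
          {x | (2 : ℝ) ^ ((Real.logb 2 (2 / Real.sqrt 3) + ε) * d) < largest x} ≤ 1 / 2 := by
  simp only [tau_eq, lt_largest_iff]
  exact Pool.Agent.Helper84.RK.wyner_iff

/-- For every `ε > 0` there is `s₁` such that for `s ≥ s₁` the largest kissing configuration among
`n ≥ 2^(s d)` random candidates has at least `2^(-ε d) τ(d)` balls, up to probability `2^(-d)`. -/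
theorem many {ε : ℝ} (hε : 0 < ε) : ∃ s₁ : ℝ, ∀ s : ℝ, s₁ ≤ s → ∃ d₀ : ℕ, ∀ d : ℕ, d₀ ≤ d →
    ∀ n : ℕ, (2 : ℝ) ^ (s * d) ≤ n → (Measure.pi fun _ : Fin n => unif d).real
      {x | ¬ (2 : ℝ) ^ (-(ε * d)) * tau d ≤ largest x} ≤ (2 : ℝ) ^ (-(d : ℝ)) := by
  obtain ⟨s₁, hs₁⟩ := Pool.Agent.Helper84.RK.all_densities hε
  refine ⟨s₁, fun s hs => ?_⟩
  obtain ⟨d₀, hd₀, h⟩ := hs₁ s hs
  refine ⟨d₀, fun d hd n hn => ?_⟩
  have : NeZero d := ⟨by omega⟩
  have hprob : IsProbabilityMeasure (unif d) := Pool.Agent.Helper47.KP.sig_prob (d := d)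
  refine le_trans (measureReal_mono ?_ (measure_ne_top _ _)) (h d hd n hn)
  intro x hx hI
  apply hx
  obtain ⟨I, hI, hI2⟩ := hI
  rw [tau_eq, largest_eq]
  refine hI2.trans ?_
  exact_mod_cast Pool.Agent.Helper49.EJ.le_maxBalls hI

/-- **Kissing configurations among random candidates.**  Let `log₂ (2/√3) < s₁` and
`s₂ < s* = log₂ (2 + √3) / √3 - log₂ 3 / 2`, where `s* > 0.3044`.  For all large `d` and all `n`
between `2^(s₁ d)` and `2^(s₂ d)` the largest kissing configuration among `n` random candidates has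
the order `d^(3/2) (2/√3)^d`, except with probability `2^(-δ d)`. -/
theorem result : (0.3044 : ℝ) < Real.logb 2 (2 + Real.sqrt 3) / Real.sqrt 3 -
      Real.logb 2 3 / 2 ∧
    ∀ s₁ s₂ : ℝ, Real.logb 2 (2 / Real.sqrt 3) < s₁ →
      s₂ < Real.logb 2 (2 + Real.sqrt 3) / Real.sqrt 3 - Real.logb 2 3 / 2 →
      ∃ c C δ : ℝ, 0 < c ∧ 0 < C ∧ 0 < δ ∧ ∃ d₀ : ℕ, ∀ d : ℕ, d₀ ≤ d → ∀ n : ℕ,
        2 ^ (s₁ * d) ≤ (n : ℝ) → (n : ℝ) ≤ 2 ^ (s₂ * d) →
        (Measure.pi fun _ : Fin n => unif d).real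
          {x | ¬ (c * F d ≤ largest x ∧ largest x ≤ C * F d)} ≤ 2 ^ (-(δ * d)) := by
  refine ⟨Pool.Agent.Helper49.EJ.threshold_gt, fun s₁ s₂ h1 h2 => ?_⟩
  obtain ⟨c, C, δ, hc, hC, hδ, d₀, h⟩ := Pool.Agent.Helper49.EJ.two_sided h1 h2
  refine ⟨c, C, δ, hc, hC, hδ, d₀, fun d hd n hn1 hn2 => ?_⟩
  simp only [largest_eq]
  exact h d hd n hn1 hn2

end Pool.Agent.Helper63.Keep.RandomKissingV1
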