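import Pool.Agent.Helper49.EJ.HC
import Pool.Agent.Helper84.RK.All
import Pool.Agent.Helper63.RKS.Asm2
import Pool.Agent.Helper63.RKS.Asm3
import Pool.Agent.Helper63.RKS.Num
import Pool.Agent.Helper63.RKS.CapAs
import Pool.Agent.Helper63.RKS.AngUp
import Pool.Agent.Helper17.SM.Final
import Pool.Agent.Helper1.SM.Asy

/-!
MP_b5f63d_co: the hard-core model of kissing balls and the largest kissing configuration among
random candidates, with the sharp constants.

`result` is the theorem of the claim.  `many` and `scale` say how it is a part of Q1; `beyond` and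
`beyond_numbers` treat more candidates.
-/

set_option autoImplicit false

open MeasureTheory Metric Filter Topology

namespace Pool.Agent.Helper63.Keep.RandomKissingV3

/-- `C` is the set of centres of closed unit balls in `ℝ^d`, each of which touches the closed unit
ball around the origin and has interior disjoint from it, with pairwise disjoint interiors. -/
def IsKissing (d : ℕ) (C : Finset (EuclideanSpace ℝ (Fin d))) : Prop :=
  (∀ x ∈ C, (closedBall x 1 ∩ closedBall 0 1).Nonempty ∧ Disjoint (ball x 1) (ball 0 1)) ∧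
    ∀ x ∈ C, ∀ y ∈ C, x ≠ y → Disjoint (ball x 1) (ball y 1)

/-- the kissing number `τ(d)` -/
noncomputable def tau (d : ℕ) : ℕ :=
  sSup {N : ℕ | ∃ C : Finset (EuclideanSpace ℝ (Fin d)), IsKissing d C ∧ C.card = N}

/-- the unit sphere of `ℝ^d` -/
abbrev Sphere (d : ℕ) : Type := sphere (0 : EuclideanSpace ℝ (Fin d)) 1

/-- the uniform probability measure on the unit sphere: normalised surface measure -/
noncomputable def unif (d : ℕ) : Measure (Sphere d) :=
  ((volume : Measure (EuclideanSpace ℝ (Fin d))).toSphere Set.univ)⁻¹ •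
    (volume : Measure (EuclideanSpace ℝ (Fin d))).toSphere

/-- the size of the largest kissing configuration all of whose centres are among the points
`2 x_1, ..., 2 x_n` -/
noncomputable def largest {d n : ℕ} (x : Fin n → Sphere d) : ℕ :=
  sSup {N : ℕ | ∃ C : Finset (EuclideanSpace ℝ (Fin d)), IsKissing d C ∧
    (∀ c ∈ C, ∃ i, c = (2 : ℝ) • (x i : EuclideanSpace ℝ (Fin d))) ∧ C.card = N}

/-- the order `F(d) = d^(3/2) (2/√3)^d` -/
noncomputable def F (d : ℕ) : ℝ := (d : ℝ) ^ (3 / 2 : ℝ) * (2 / Real.sqrt 3) ^ d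

/-- the exponent of Wyner's lower bound, `0.2075...` -/
noncomputable def s0 : ℝ := Real.logb 2 (2 / Real.sqrt 3)

/-- `log₂ (2 + √3) / √3 - log₂ 3 / 2 = 0.3044...` -/
noncomputable def sStar : ℝ := Real.logb 2 (2 + Real.sqrt 3) / Real.sqrt 3 - Real.logb 2 3 / 2

/-- the constant `√(3π/8) log 2` -/
noncomputable def A : ℝ := Real.sqrt (3 * Real.pi / 8) * Real.log 2

/-- the constant of the upper bound for the largest kissing configuration among random candidates:
`2 (s - s0)` up to the middle of `s0` and `s*`, then `(s* - s0)^2 / (2 (s* - s))` -/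
noncomputable def U (s : ℝ) : ℝ :=
  if 2 * s ≤ s0 + sStar then 2 * (s - s0) else (sStar - s0) ^ 2 / (2 * (sStar - s))

/-- the constant of the lower bound for the largest kissing configuration among random candidates:
`2 (s - s0)` up to the middle of `s0` and `s*`, then `s* - s0` -/
noncomputable def V (s : ℝ) : ℝ := min (2 * (s - s0)) (sStar - s0)

/-- the exponent of the Kabatiansky-Levenshtein linear programming bound at the angle whose sine is
`σ` -/
noncomputable def KL (σ : ℝ) : ℝ :=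
  (1 + (1 - σ) / (2 * σ)) * Real.logb 2 (1 + (1 - σ) / (2 * σ)) -
    (1 - σ) / (2 * σ) * Real.logb 2 ((1 - σ) / (2 * σ))

/-- the probability that `k` unit balls whose centres are independent uniform points of the sphere
of radius `2` do not overlap -/
noncomputable def P (d k : ℕ) : ℝ :=
  (Measure.pi fun _ : Fin k => unif d).real {x | ∀ i j, i ≠ j →
    Disjoint (ball ((2 : ℝ) • (x i : EuclideanSpace ℝ (Fin d))) 1)
      (ball ((2 : ℝ) • (x j : EuclideanSpace ℝ (Fin d))) 1)}

/-- the weight of the configurations of `k` balls in the hard-core model of fugacity `lam` -/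
noncomputable def weight (d : ℕ) (lam : ℝ) (k : ℕ) : ℝ := lam ^ k / (k.factorial : ℝ) * P d k

/-- the partition function of the hard-core model -/
noncomputable def Z (d : ℕ) (lam : ℝ) : ℝ := ∑' k : ℕ, weight d lam k

/-- the mean number of balls in the hard-core model -/
noncomputable def mean (d : ℕ) (lam : ℝ) : ℝ := (∑' k : ℕ, (k : ℝ) * weight d lam k) / Z d lam

lemma isKissing_iff {d : ℕ} {C : Finset (EuclideanSpace ℝ (Fin d))} :
    IsKissing d C ↔ (∀ x ∈ C, ‖x‖ = 2) ∧
      ∀ x ∈ C, ∀ y ∈ C, x ≠ y → Disjoint (ball x 1) (ball y 1) := by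
  have h' : ∀ x : EuclideanSpace ℝ (Fin d),
      ((closedBall x 1 ∩ closedBall 0 1).Nonempty ∧ Disjoint (ball x 1) (ball 0 1)) ↔ ‖x‖ = 2 := by
    intro x
    rw [disjoint_ball_ball_iff one_pos one_pos, dist_zero_right]
    constructor
    · rintro ⟨⟨y, hy1, hy2⟩, h2⟩
      rw [mem_closedBall] at hy1
      rw [mem_closedBall, dist_zero_right] at hy2
      have h3 : ‖x‖ ≤ ‖y‖ + dist y x := by
        rw [dist_eq_norm, ← norm_sub_rev x y]
        calc ‖x‖ = ‖y + (x - y)‖ := by congr 1; abel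
          _ ≤ _ := norm_add_le _ _
      linarith
    · intro hx
      refine ⟨⟨(2⁻¹ : ℝ) • x, ?_, ?_⟩, by linarith⟩
      · rw [mem_closedBall, dist_eq_norm]
        have : (2⁻¹ : ℝ) • x - x = (-2⁻¹ : ℝ) • x := by
          rw [← sub_eq_zero]
          module
        rw [this, norm_smul, hx]
        norm_num
      · rw [mem_closedBall, dist_zero_right, norm_smul, hx]
        norm_num
  unfold IsKissing
  simp only [h']

lemma norm_two_smul {d : ℕ} (x : Sphere d) :
    ‖(2 : ℝ) • (x : EuclideanSpace ℝ (Fin d))‖ = 2 := by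
  have := x.2
  rw [mem_sphere_zero_iff_norm] at this
  rw [norm_smul, this]
  norm_num

open Pool.Agent.Helper49.EJ in
/-- the kissing configurations among the candidates are the sets of candidates with pairwise
disjoint balls -/
lemma exists_iff {d n : ℕ} (x : Fin n → Sphere d) (N : ℕ) :
    (∃ C : Finset (EuclideanSpace ℝ (Fin d)), IsKissing d C ∧
      (∀ c ∈ C, ∃ i, c = (2 : ℝ) • (x i : EuclideanSpace ℝ (Fin d))) ∧ C.card = N) ↔
    ∃ I : Finset (Fin n), NoOverlap x I ∧ I.card = N := by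
  classical
  constructor
  · rintro ⟨C, hC, hCx, rfl⟩
    obtain ⟨-, h3⟩ := isKissing_iff.1 hC
    choose f hf using hCx
    refine ⟨C.attach.image (fun c => f c.1 c.2), ?_, ?_⟩
    · intro i hi j hj hij
      obtain ⟨a, -, rfl⟩ := Finset.mem_image.1 hi
      obtain ⟨b, -, rfl⟩ := Finset.mem_image.1 hj
      rw [← hf a.1 a.2, ← hf b.1 b.2]
      apply h3 _ a.2 _ b.2
      intro hab
      apply hij
      have : a = b := Subtype.ext hab
      rw [this]
    · rw [Finset.card_image_of_injective, Finset.card_attach]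
      intro a b hab
      apply Subtype.ext
      rw [hf a.1 a.2, hf b.1 b.2]
      simp only at hab
      rw [hab]
  · rintro ⟨I, hI, rfl⟩
    have hinj : Set.InjOn (fun i => (2 : ℝ) • (x i : EuclideanSpace ℝ (Fin d))) I := by
      intro i hi j hj hij
      by_contra hne
      have h4 := hI i hi j hj hne
      simp only at hij
      rw [hij] at h4
      have h5 := Set.disjoint_left.1 h4 (mem_ball_self one_pos)
      exact h5 (mem_ball_self one_pos)
    refine ⟨I.image (fun i => (2 : ℝ) • (x i : EuclideanSpace ℝ (Fin d))), ?_, ?_,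
      Finset.card_image_of_injOn hinj⟩
    · rw [isKissing_iff]
      constructor
      · intro c hc
        obtain ⟨i, -, rfl⟩ := Finset.mem_image.1 hc
        exact norm_two_smul (x i)
      · intro c hc c' hc' hne
        obtain ⟨i, hi, rfl⟩ := Finset.mem_image.1 hc
        obtain ⟨j, hj, rfl⟩ := Finset.mem_image.1 hc'
        exact hI i hi j hj (fun h => hne (by rw [h]))
    · intro c hc
      obtain ⟨i, -, rfl⟩ := Finset.mem_image.1 hc
      exact ⟨i, rfl⟩

open Pool.Agent.Helper49.EJ in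
lemma largest_eq {d n : ℕ} (x : Fin n → Sphere d) : largest x = maxBalls x := by
  unfold largest
  apply IsGreatest.csSup_eq
  constructor
  · obtain ⟨I, hI, hI2⟩ := exists_maxBalls x
    exact (exists_iff x _).2 ⟨I, (noOverlap_iff x I).2 hI, hI2⟩
  · intro N hN
    obtain ⟨I, hI, rfl⟩ := (exists_iff x N).1 hN
    exact le_maxBalls ((noOverlap_iff x I).1 hI)

lemma tau_eq (d : ℕ) : tau d = Pool.Agent.Helper84.RK.tau d := by
  classical
  unfold tau Pool.Agent.Helper84.RK.tau
  congr 1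
  ext N
  constructor
  · rintro ⟨C, hC, rfl⟩
    obtain ⟨h1, h2⟩ := isKissing_iff.1 hC
    have hn : ∀ c : C, (2⁻¹ : ℝ) • (c : EuclideanSpace ℝ (Fin d)) ∈
        sphere (0 : EuclideanSpace ℝ (Fin d)) 1 := by
      intro c
      rw [mem_sphere_zero_iff_norm, norm_smul, h1 c.1 c.2]
      norm_num
    have h22 : ∀ v : EuclideanSpace ℝ (Fin d), (2 : ℝ) • (2⁻¹ : ℝ) • v = v := by
      intro v
      rw [smul_smul]
      norm_num
    refine ⟨C.attach.image (fun c => (⟨_, hn c⟩ : Sphere d)), ?_, ?_⟩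
    · intro y hy z hz hyz
      obtain ⟨a, -, rfl⟩ := Finset.mem_image.1 hy
      obtain ⟨b, -, rfl⟩ := Finset.mem_image.1 hz
      rw [← Pool.Agent.Helper49.EJ.disjoint_iff]
      simp only [h22]
      apply h2 _ a.2 _ b.2
      intro hab
      apply hyz
      have : a = b := Subtype.ext hab
      rw [this]
    · rw [Finset.card_image_of_injective, Finset.card_attach]
      intro a b hab
      have h3 := congrArg (fun v : Sphere d => (2 : ℝ) • (v : EuclideanSpace ℝ (Fin d))) hab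
      simp only [h22] at h3
      exact Subtype.ext h3
  · rintro ⟨Y, hY, rfl⟩
    have hinj : Function.Injective
        (fun y : Sphere d => (2 : ℝ) • (y : EuclideanSpace ℝ (Fin d))) := by
      intro a b hab
      apply Subtype.ext
      simp only at hab
      exact smul_right_injective _ (two_ne_zero' ℝ) hab
    refine ⟨Y.image (fun y : Sphere d => (2 : ℝ) • (y : EuclideanSpace ℝ (Fin d))), ?_,
      Finset.card_image_of_injective _ hinj⟩
    rw [isKissing_iff]
    constructor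
    · intro c hc
      obtain ⟨y, -, rfl⟩ := Finset.mem_image.1 hc
      exact norm_two_smul y
    · intro c hc c' hc' hne
      obtain ⟨y, hy, rfl⟩ := Finset.mem_image.1 hc
      obtain ⟨z, hz, rfl⟩ := Finset.mem_image.1 hc'
      exact (Pool.Agent.Helper49.EJ.disjoint_iff y z).2 (hY y hy z hz (fun h => hne (by rw [h])))

lemma lt_largest_iff {d n : ℕ} (x : Fin n → Sphere d) (t : ℝ) :
    t < largest x ↔ ∃ I : Finset (Fin n), Pool.Agent.Helper84.RK.Kis x I ∧ t < I.card := by
  rw [largest_eq]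
  constructor
  · intro h
    obtain ⟨I, hI, hI2⟩ := Pool.Agent.Helper49.EJ.exists_maxBalls x
    exact ⟨I, hI, by rw [hI2]; exact h⟩
  · rintro ⟨I, hI, h⟩
    have h2 : (I.card : ℝ) ≤ Pool.Agent.Helper49.EJ.maxBalls x := by
      exact_mod_cast Pool.Agent.Helper49.EJ.le_maxBalls hI
    linarith

/-- **The scale which ends in Q1.** The kissing numbers have the exponent `log₂ (2/√3)` of Wyner's
lower bound if and only if for every `s` the largest kissing configuration among `2^(s d)` random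
candidates has at most this exponent.  By `result` this is so for `s < s*`. -/
theorem scale :
    Tendsto (fun d : ℕ => Real.logb 2 (tau d) / d) atTop (𝓝 (Real.logb 2 (2 / Real.sqrt 3))) ↔
      ∀ s ε : ℝ, 0 < ε → ∀ᶠ d : ℕ in atTop,
        (Measure.pi fun _ : Fin ⌊(2 : ℝ) ^ (s * d)⌋₊ => unif d).real
          {x | (2 : ℝ) ^ ((Real.logb 2 (2 / Real.sqrt 3) + ε) * d) < largest x} ≤ 1 / 2 := by
  simp only [tau_eq, lt_largest_iff]
  exact Pool.Agent.Helper84.RK.wyner_iff

/-- For every `ε > 0` there is `s₁` such that for `s ≥ s₁` the largest kissing configuration among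
`n ≥ 2^(s d)` random candidates has at least `2^(-ε d) τ(d)` balls, up to probability `2^(-d)`. -/
theorem many {ε : ℝ} (hε : 0 < ε) : ∃ s₁ : ℝ, ∀ s : ℝ, s₁ ≤ s → ∃ d₀ : ℕ, ∀ d : ℕ, d₀ ≤ d →
    ∀ n : ℕ, (2 : ℝ) ^ (s * d) ≤ n → (Measure.pi fun _ : Fin n => unif d).real
      {x | ¬ (2 : ℝ) ^ (-(ε * d)) * tau d ≤ largest x} ≤ (2 : ℝ) ^ (-(d : ℝ)) := by
  obtain ⟨s₁, hs₁⟩ := Pool.Agent.Helper84.RK.all_densities hε
  refine ⟨s₁, fun s hs => ?_⟩
  obtain ⟨d₀, hd₀, h⟩ := hs₁ s hs
  refine ⟨d₀, fun d hd n hn => ?_⟩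
  have : NeZero d := ⟨by omega⟩
  have hprob : IsProbabilityMeasure (unif d) := Pool.Agent.Helper47.KP.sig_prob (d := d)
  refine le_trans (measureReal_mono ?_ (measure_ne_top _ _)) (h d hd n hn)
  intro x hx hI
  apply hx
  obtain ⟨I, hI, hI2⟩ := hI
  rw [tau_eq, largest_eq]
  refine hI2.trans ?_
  exact_mod_cast Pool.Agent.Helper49.EJ.le_maxBalls hI

lemma P_eq (d k : ℕ) : P d k = Pool.Agent.Helper49.EJ.kp d k :=
  Pool.Agent.Helper49.EJ.prob_eq d k

lemma weight_eq (d : ℕ) (lam : ℝ) : weight d lam =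
    Pool.Agent.Helper49.EJ.wt (Pool.Agent.Helper49.EJ.kp d) lam := by
  funext k
  unfold weight Pool.Agent.Helper49.EJ.wt
  rw [P_eq]

lemma Z_eq (d : ℕ) (lam : ℝ) : Z d lam =
    Pool.Agent.Helper49.EJ.ZZ (Pool.Agent.Helper49.EJ.kp d) lam := by
  unfold Z Pool.Agent.Helper49.EJ.ZZ
  rw [weight_eq]

lemma mean_eq (d : ℕ) (lam : ℝ) : mean d lam =
    Pool.Agent.Helper49.EJ.mn (Pool.Agent.Helper49.EJ.kp d) lam := by
  unfold mean Pool.Agent.Helper49.EJ.mn
  rw [weight_eq, Z_eq]

lemma sStar_eq : s0 + Pool.Agent.Helper49.EJ.gst = sStar := Pool.Agent.Helper49.EJ.threshold_eq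

lemma U_eq {s : ℝ} (hs : s0 < s) :
    U s = Pool.Agent.Helper63.RKS.top Pool.Agent.Helper49.EJ.gst (s - s0) := by
  have h := sStar_eq
  unfold U
  split_ifs with h1
  · rw [Pool.Agent.Helper63.RKS.top_of_le (by linarith) (by linarith)]
  · rw [Pool.Agent.Helper63.RKS.top_of_ge (by linarith), ← h]
    congr 2 <;> ring

lemma V_eq {s : ℝ} : V s = min (2 * (s - s0)) Pool.Agent.Helper49.EJ.gst := by
  unfold V
  rw [← sStar_eq, add_sub_cancel_left]

lemma eventually_of {p : ℕ → Prop} (h : ∀ᶠ d : ℕ in atTop, p d) : ∃ d₀ : ℕ, ∀ d : ℕ, d₀ ≤ d → p d :=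
  eventually_atTop.1 h

/-- Random candidates beyond `s*`: if `2 s < log₂ (1/σ) + KL(σ)` for some `σ ≤ √3/2`, then among at
most `2^(s d)` random candidates there is no kissing configuration of more than
`2^((log₂ (1/σ) + ε) d)` balls, up to probability `exp (- 2^(log₂ (1/σ) d))`. -/
theorem beyond (σ s ε : ℝ) (h0 : 0 < σ) (h1 : σ ≤ Real.sqrt 3 / 2)
    (hs : 2 * s < Real.logb 2 (1 / σ) + KL σ) (hε : 0 < ε) :
    ∃ d₀ : ℕ, ∀ d : ℕ, d₀ ≤ d → ∀ n : ℕ, (n : ℝ) ≤ 2 ^ (s * d) →
      (Measure.pi fun _ : Fin n => unif d).real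
        {x | (2 : ℝ) ^ ((Real.logb 2 (1 / σ) + ε) * d) < largest x} ≤
        Real.exp (-(2 : ℝ) ^ (Real.logb 2 (1 / σ) * d)) := by
  obtain ⟨d₀, h3, h⟩ := Pool.Agent.Helper63.RKS.ang h0 h1 hs hε
  refine ⟨d₀, fun d hd n hn => ?_⟩
  have : NeZero d := ⟨by omega⟩
  have hprob : IsProbabilityMeasure (unif d) := Pool.Agent.Helper47.KP.sig_prob (d := d)
  refine le_trans (measureReal_mono ?_ (measure_ne_top _ _)) (h d hd n hn)
  intro x hx
  obtain ⟨I, hI, hI2⟩ := (lt_largest_iff x _).1 hx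
  exact ⟨I, hI, hI2.le⟩

/-- Two numerical instances of `beyond`: the exponent of the largest kissing configuration is at most
`0.2864` for `s ≤ 0.4`, and at most `0.396` for `s ≤ 0.53`. -/
theorem beyond_numbers : ∃ d₀ : ℕ, ∀ d : ℕ, d₀ ≤ d → ∀ n : ℕ,
    ((n : ℝ) ≤ 2 ^ (0.4 * (d : ℝ)) → (Measure.pi fun _ : Fin n => unif d).real
      {x | (2 : ℝ) ^ (0.2864 * (d : ℝ)) < largest x} ≤ Real.exp (-(2 : ℝ) ^ ((d : ℝ) / 4))) ∧
    ((n : ℝ) ≤ 2 ^ (0.53 * (d : ℝ)) → (Measure.pi fun _ : Fin n => unif d).real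
      {x | (2 : ℝ) ^ (0.396 * (d : ℝ)) < largest x} ≤ Real.exp (-(2 : ℝ) ^ ((d : ℝ) / 4))) := by
  have h3 : (17 / 10 : ℝ) < Real.sqrt 3 := by
    rw [Real.lt_sqrt (by norm_num)]; norm_num
  have hquarter : ∀ σ : ℝ, 0 < σ → σ ≤ 5 / 6 → 1 / 4 ≤ Real.logb 2 (1 / σ) := by
    intro σ h0 h1
    rw [Real.le_logb_iff_rpow_le (by norm_num) (by positivity)]
    have h4 : ((2 : ℝ) ^ (1 / 4 : ℝ)) ^ (4 : ℕ) ≤ (6 / 5 : ℝ) ^ (4 : ℕ) := by
      rw [← Real.rpow_natCast ((2 : ℝ) ^ (1 / 4 : ℝ)), ← Real.rpow_mul (by norm_num)]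
      norm_num
    refine (le_of_pow_le_pow_left₀ (by norm_num) (by norm_num) h4).trans ?_
    rw [le_div_iff₀ h0]
    linarith
  have key : ∀ σ s e : ℝ, 0 < σ → σ ≤ 5 / 6 → 2 * s < Real.logb 2 (1 / σ) + KL σ →
      Real.logb 2 (1 / σ) < e → ∃ d₀ : ℕ, ∀ d : ℕ, d₀ ≤ d → ∀ n : ℕ, (n : ℝ) ≤ 2 ^ (s * d) →
      (Measure.pi fun _ : Fin n => unif d).real {x | (2 : ℝ) ^ (e * d) < largest x} ≤
        Real.exp (-(2 : ℝ) ^ ((d : ℝ) / 4)) := by
    intro σ s e h0 h1 hs he
    obtain ⟨d₀, h⟩ := beyond σ s (e - Real.logb 2 (1 / σ)) h0 (by linarith) hs (by linarith)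
    refine ⟨d₀, fun d hd n hn => ?_⟩
    have h4 := h d hd n hn
    rw [add_sub_cancel] at h4
    refine h4.trans (Real.exp_le_exp.2 (neg_le_neg ?_))
    apply Real.rpow_le_rpow_of_exponent_le (by norm_num)
    have h5 := hquarter σ h0 h1
    have h6 : (0 : ℝ) ≤ d := Nat.cast_nonneg d
    nlinarith
  obtain ⟨d₁, h1⟩ := key (41 / 50) 0.4 0.2864 (by norm_num) (by norm_num)
    (by
      have := Pool.Agent.Helper63.RKS.num2
      unfold Pool.Agent.Helper84.RK.gg at this
      unfold KL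
      norm_num at this ⊢
      linarith)
    (by
      have := Pool.Agent.Helper63.RKS.num2'
      norm_num at this ⊢
      linarith)
  obtain ⟨d₂, h2⟩ := key (19 / 25) 0.53 0.396 (by norm_num) (by norm_num)
    (by
      have := Pool.Agent.Helper63.RKS.num1
      unfold Pool.Agent.Helper84.RK.gg at this
      unfold KL
      norm_num at this ⊢
      linarith)
    (by
      have := Pool.Agent.Helper63.RKS.num1'
      norm_num at this ⊢
      linarith)
  exact ⟨max d₁ d₂, fun d hd n =>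
    ⟨fun hn => h1 d ((le_max_left _ _).trans hd) n hn,
      fun hn => h2 d ((le_max_right _ _).trans hd) n hn⟩⟩

/-- **The hard-core model of kissing balls and kissing configurations among random candidates.**

(1) In the hard-core model of fugacity `2^(s d)` the mean number of balls is
`(A (s - s0) + o(1)) F(d)`, the logarithm of the partition function is
`(A (log 2) (s - s0)^2 / 2 + o(1)) d F(d)`, and the number of balls differs from
`A (s - s0) F(d)` by more than `ε F(d)` with probability at most `exp (- δ d F(d))`, uniformly for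
`s` in compact subsets of `(s0, s*)`.

(2) `k` random balls do not overlap with probability
`exp (- (log 2 / (2 A)) k^2 d / F(d) + o(d F(d)))`, uniformly for `k ≤ c A F(d)`, `c < s* - s0`.

(3) Among `2^(s d)` random candidates the largest kissing configuration has between
`(A V(s) - ε) F(d)` and `(A U(s) + ε) F(d)` balls, up to probability `exp (- δ F(d))`,
uniformly for `s` in compact subsets of `(s0, s*)`.  Here `U(s) = V(s) = 2 (s - s0)` up to the
middle of `s0` and `s*`: there the largest kissing configuration has `(2 A (s - s0) + o(1)) F(d)`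
balls, twice as many as the hard-core model of fugacity `2^(s d)`. -/
theorem result : (0.3044 : ℝ) < sStar ∧
    (∀ s₁ s₂ ε : ℝ, s0 < s₁ → s₂ < sStar → 0 < ε →
      ∃ δ : ℝ, 0 < δ ∧ ∃ d₀ : ℕ, ∀ d : ℕ, d₀ ≤ d → ∀ s : ℝ, s₁ ≤ s → s ≤ s₂ →
        |mean d (2 ^ (s * d)) - A * (s - s0) * F d| ≤ ε * F d ∧
        |Real.log (Z d (2 ^ (s * d))) - A * Real.log 2 / 2 * (s - s0) ^ 2 * (d * F d)| ≤
          ε * (d * F d) ∧
        ∑' k : ℕ, (if ε * F d ≤ |(k : ℝ) - A * (s - s0) * F d| then weight d (2 ^ (s * d)) k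
          else 0) ≤ Real.exp (-(δ * (d * F d))) * Z d (2 ^ (s * d))) ∧
    (∀ c ε : ℝ, c < sStar - s0 → 0 < ε → ∃ d₀ : ℕ, ∀ d : ℕ, d₀ ≤ d →
      ∀ k : ℕ, (k : ℝ) ≤ c * (A * F d) →
        Real.exp (-(Real.log 2 / (2 * A) * (k ^ 2 * d / F d)) - ε * (d * F d)) ≤ P d k ∧
        P d k ≤ Real.exp (-(Real.log 2 / (2 * A) * (k ^ 2 * d / F d)) + ε * (d * F d))) ∧
    (∀ s₁ s₂ ε : ℝ, s0 < s₁ → s₂ < sStar → 0 < ε →
      ∃ δ : ℝ, 0 < δ ∧ ∃ d₀ : ℕ, ∀ d : ℕ, d₀ ≤ d → ∀ s : ℝ, s₁ ≤ s → s ≤ s₂ →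
        (Measure.pi fun _ : Fin ⌊(2 : ℝ) ^ (s * d)⌋₊ => unif d).real
          {x | ¬ ((A * V s - ε) * F d ≤ largest x ∧
            largest x ≤ (A * U s + ε) * F d)} ≤ Real.exp (-(δ * F d))) := by
  have hcap : Pool.Agent.Helper63.RKS.CapAsymp := Pool.Agent.Helper63.RKS.pc_asymp
  have hst : sStar = Pool.Agent.Helper63.RKS.sT := sStar_eq.symm
  have hst2 := sStar_eq
  refine ⟨Pool.Agent.Helper49.EJ.threshold_gt, ?_, ?_, ?_⟩
  · intro s₁ s₂ ε h1 h2 hε
    rw [hst] at h2
    obtain ⟨δ, hδ, hN⟩ := Pool.Agent.Helper63.RKS.number_sharp hcap h1 h2 hε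
    obtain ⟨d₀, h⟩ := eventually_of
      (hN.and (Pool.Agent.Helper63.RKS.hardcore_sharp hcap h1 h2 hε))
    refine ⟨δ, hδ, d₀, fun d hd s hs1 hs2 => ?_⟩
    obtain ⟨hA, hB⟩ := h d hd
    have hB := hB s hs1 hs2
    have hA := hA s hs1 hs2
    rw [mean_eq, Z_eq, weight_eq]
    exact ⟨hB.1, hB.2, hA⟩
  · intro c ε hc hε
    rw [hst] at hc
    obtain ⟨d₁, h'⟩ := eventually_of
      (Pool.Agent.Helper63.RKS.pk_sharp hcap (c := c) hc hε)
    refine ⟨d₁, fun d hd k hk => ?_⟩
    rw [P_eq]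
    obtain ⟨hpos, habs⟩ := h' d hd k hk
    obtain ⟨h4, h5⟩ := abs_le.1 habs
    have e1 : Real.log 2 / (2 * A) * ((k : ℝ) ^ 2 * d / F d) = Real.log 2 /
        (2 * Pool.Agent.Helper63.RKS.AA) * ((k : ℝ) ^ 2 * d / Pool.Agent.Helper49.EJ.ord d) := by
      unfold A F Pool.Agent.Helper63.RKS.AA Pool.Agent.Helper49.EJ.ord
      ring
    have e2 : ε * (d * F d) = ε * (d * Pool.Agent.Helper49.EJ.ord d) := rfl
    constructor
    · conv_rhs => rw [← Real.exp_log hpos]
      apply Real.exp_le_exp.2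
      rw [e1, e2]
      linarith
    · conv_lhs => rw [← Real.exp_log hpos]
      apply Real.exp_le_exp.2
      rw [e1, e2]
      linarith
  · intro s₁ s₂ ε h1 h2 hε
    have h2' := h2
    rw [← hst2] at h2
    obtain ⟨δ, hδ, hN⟩ := Pool.Agent.Helper63.SM.largest_exact_of
      (fun _ _ hc0 hc hcs _ he => Pool.Agent.Helper1.SM.lower_half hcap hc0 hc hcs he) hcap h1 h2 hε
    obtain ⟨d₀, h⟩ := eventually_of hN
    refine ⟨δ, hδ, d₀, fun d hd s hs1 hs2 => ?_⟩
    simp only [largest_eq]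
    rw [U_eq (lt_of_lt_of_le h1 hs1), V_eq]
    exact h d hd s hs1 hs2

end Pool.Agent.Helper63.Keep.RandomKissingV3
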